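import Pool.Agent.V11279.BesV

/-!
# A `C¹` Besicovitch cylindrical transformation over a minimal rotation of the two-torus

The rotation vector is `(β, β²)`, where `β` is the positive root of `x³ + 14 x - 2`. Writing
`β^n = A_n + B_n β + C_n β²` with integers `A_n, B_n, C_n`, the function is
`φ = ∑ n (cos 2π(B_n x + C_n y) - cos 2π(B_n (x + β) + C_n (y + β²)))`.
-/

set_option autoImplicit false

open Filter Set Topology

namespace Pool.Agent.Results.MP_742cc2_an.CubicRotation

open Pool.Agent.V11279.BesT

/-- There are a minimal rotation `x ↦ x + a` of the torus `𝕋²` and a function `φ : 𝕋² → ℝ` of class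
`C¹` such that the cylindrical transformation `T_φ (x, t) = (x + a, t + φ x)` is Besicovitch: it has
a dense orbit, and it has an orbit without accumulation points (that is, a closed discrete orbit).
More precisely, the Birkhoff sums `φ^(n)(0)` tend to `+∞` as `|n| → ∞`. -/
theorem result : ∃ (a : Fin 2 → UnitAddCircle) (φ : (Fin 2 → UnitAddCircle) → ℝ),
    (∀ x : Fin 2 → UnitAddCircle, Dense (Set.range fun n : ℤ => x + n • a)) ∧
    ContDiff ℝ 1 (fun p : Fin 2 → ℝ => φ (fun i => (p i : UnitAddCircle))) ∧
    (∃ p, Dense (orbit a φ p)) ∧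
    (∃ p, ∀ z, ¬ AccPt z (𝓟 (orbit a φ p))) ∧
    Tendsto (fun n : ℤ => (((cyl a φ) ^ n) (0, 0)).2) cofinite atTop := by
  refine ⟨Pool.Agent.V11279.BesV.a 1, Pool.Agent.V11279.BesV.φ 1, ?_, ?_,
    (Pool.Agent.V11279.BesV.isBesicovitch 1).exists_dense_orbit,
    (Pool.Agent.V11279.BesV.isBesicovitch 1).exists_discrete_orbit,
    Pool.Agent.V11279.BesV.tendsto_S 1⟩
  · intro x
    have h := (Pool.Agent.V11279.BesV.denseRange 1)
    have h2 : DenseRange (fun n : ℤ => x + n • Pool.Agent.V11279.BesV.a 1) :=
      (Homeomorph.addLeft x).surjective.denseRange.comp h (Homeomorph.addLeft x).continuous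
    exact h2
  · exact_mod_cast Pool.Agent.V11279.BesV.contDiff_φ 1

end Pool.Agent.Results.MP_742cc2_an.CubicRotation
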